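import Mathlib

namespace Pool.Agent.H.MP_f027b3_co

open Sum

variable {V : Type}

def Cyc (H : SimpleGraph V) (L : ℕ) (v : ℤ → V) : Prop :=
  3 ≤ L ∧ (∀ t, v (t + L) = v t) ∧ (∀ t, H.Adj (v t) (v (t + 1))) ∧
    ∀ a b : ℤ, a < b → b < a + L → v a ≠ v b

def LM (f : V → V → ℝ) (v : ℤ → V) (t : ℤ) : Prop :=
  f (v (t + 1)) (v (t + 1 + 1)) < f (v t) (v (t + 1)) ∧ f (v (t - 1)) (v t) < f (v t) (v (t + 1))

def Two (f : V → V → ℝ) (L : ℕ) (v : ℤ → V) : Prop :=
  ∃ i j : ℤ, i < j ∧ j < i + L ∧ LM f v i ∧ LM f v j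

def GoodS (H : SimpleGraph V) (f : V → V → ℝ) : Prop := ∀ L v, Cyc H L v → Two f L v

/-- the cycle condition in the form of the frozen statement -/
def GoodW (G : SimpleGraph V) (f : V → V → ℝ) : Prop :=
  ∀ (u : V) (p : G.Walk u u), p.IsCycle →
    ∃ i j : ℕ, i < p.length ∧ j < p.length ∧ i ≠ j ∧
      f (p.getVert ((i + 1) % p.length)) (p.getVert ((i + 1) % p.length + 1)) <
        f (p.getVert i) (p.getVert (i + 1)) ∧
      f (p.getVert ((i + p.length - 1) % p.length))
          (p.getVert ((i + p.length - 1) % p.length + 1)) <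
        f (p.getVert i) (p.getVert (i + 1)) ∧
      f (p.getVert ((j + 1) % p.length)) (p.getVert ((j + 1) % p.length + 1)) <
        f (p.getVert j) (p.getVert (j + 1)) ∧
      f (p.getVert ((j + p.length - 1) % p.length))
          (p.getVert ((j + p.length - 1) % p.length + 1)) <
        f (p.getVert j) (p.getVert (j + 1))

theorem goodW_of {G : SimpleGraph V} {f : V → V → ℝ} (h : GoodS G f) : GoodW G f := by
  intro u p hp
  have h3 := hp.three_le_length
  obtain ⟨L, hL⟩ : ∃ L, L = p.length := ⟨_, rfl⟩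
  rw [← hL] at h3 ⊢
  have hL0 : (0 : ℤ) < L := by omega
  obtain ⟨r, hr⟩ : ∃ r : ℤ → ℕ, r = fun t : ℤ => (t % (L : ℤ)).toNat := ⟨_, rfl⟩
  have r1 : ∀ t, (r t : ℤ) = t % L := fun t => by
    rw [hr]; exact Int.toNat_of_nonneg (Int.emod_nonneg _ hL0.ne')
  have r2 : ∀ t, r t < L := fun t => by
    have := Int.emod_lt_of_pos t hL0
    have := r1 t
    omega
  have r3 : ∀ t, r (t + 1) = (r t + 1) % L := fun t => by
    apply Nat.cast_injective (R := ℤ)
    push_cast
    rw [r1, r1, Int.emod_add_emod]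
  have r4 : ∀ t, r (t - 1) = (r t + L - 1) % L := fun t => by
    apply Nat.cast_injective (R := ℤ)
    rw [Int.natCast_mod, Nat.cast_sub (by omega)]
    push_cast
    rw [r1, r1, Int.emod_eq_emod_iff_emod_sub_eq_zero]
    have := Int.emod_add_mul_ediv t L
    have e : t - 1 - (t % L + L - 1) = L * (t / L - 1) := by linarith
    rw [e, Int.mul_emod_right]
  have r5 : ∀ t, p.getVert (r (t + 1)) = p.getVert (r t + 1) := fun t => by
    rw [r3]
    by_cases e : r t + 1 < L
    · rw [Nat.mod_eq_of_lt e]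
    · have : r t + 1 = L := by have := r2 t; omega
      rw [this, Nat.mod_self, hL, p.getVert_length, p.getVert_zero]
  have r6 : ∀ a b : ℤ, a < b → b < a + L → r a ≠ r b := by
    intro a b h1 h2 e
    have e' : b % L = a % L := by rw [← r1, ← r1, e]
    rw [Int.emod_eq_emod_iff_emod_sub_eq_zero, Int.emod_eq_of_lt (by omega) (by omega)] at e'
    omega
  obtain ⟨i, j, h1, h2, ⟨a1, a2⟩, b1, b2⟩ := h L (fun t => p.getVert (r t)) ⟨h3, fun t => by
      have : r (t + L) = r t := by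
        apply Nat.cast_injective (R := ℤ)
        rw [r1, r1, Int.add_emod_right]
      simp only [this], fun t => by
      simp only [r5]
      exact p.adj_getVert_succ (by rw [← hL]; exact r2 t), fun a b h1 h2 e =>
      r6 a b h1 h2 (hp.getVert_injOn' (by have := r2 a; simp only [Set.mem_ofPred_eq]; omega)
        (by have := r2 b; simp only [Set.mem_ofPred_eq]; omega) e)⟩
  have k1 : ∀ t, p.getVert (r t) = p.getVert (r (t - 1) + 1) := fun t => by
    rw [← r5]; simp
  refine ⟨r i, r j, r2 i, r2 j, r6 i j h1 h2, ?_, ?_, ?_, ?_⟩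
  · rw [← r3, ← r5, ← r5]; exact a1
  · rw [← r4, ← k1, ← r5]; exact a2
  · rw [← r3, ← r5, ← r5]; exact b1
  · rw [← r4, ← k1, ← r5]; exact b2

theorem Cyc.rev {H : SimpleGraph V} {L : ℕ} {v : ℤ → V} (h : Cyc H L v) :
    Cyc H L (fun t => v (-t)) := by
  obtain ⟨h1, h2, h3, h4⟩ := h
  refine ⟨h1, fun t => ?_, fun t => ?_, fun a b hab hb => (h4 (-b) (-a) (by omega) (by omega)).symm⟩
  · have := h2 (-(t + L))
    rw [show -(t + (L : ℤ)) + L = -t by ring] at this
    exact this.symm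
  · have := h3 (-(t + 1))
    rw [show -(t + 1) + 1 = -t by ring] at this
    exact this.symm

theorem Two.of_rev {f : V → V → ℝ} (hf : ∀ a b, f a b = f b a) {L : ℕ} {v : ℤ → V}
    (h : Two f L (fun t => v (-t))) : Two f L v := by
  have key : ∀ t, LM f (fun t => v (-t)) t → LM f v (-t - 1) := by
    rintro t ⟨a, b⟩
    simp only at a b
    constructor
    · rw [show -t - 1 + 1 + 1 = -(t - 1) by ring, show -t - 1 + 1 = -t by ring,
        show -t - 1 = -(t + 1) by ring, hf (v (-t)), hf (v (-(t + 1)))]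
      exact b
    · rw [show -t - 1 - 1 = -(t + 1 + 1) by ring, show -t - 1 + 1 = -t by ring,
        show -t - 1 = -(t + 1) by ring, hf (v (-(t + 1 + 1))), hf (v (-(t + 1))) (v (-t))]
      exact a
  obtain ⟨i, j, h1, h2, h3, h4⟩ := h
  exact ⟨-j - 1, -i - 1, by omega, by omega, key j h4, key i h3⟩

theorem c4 {G : SimpleGraph V} {f : V → V → ℝ} (h : GoodW G f)
    {a b c d : V} (h1 : G.Adj a b) (h2 : G.Adj b c) (h3 : G.Adj c d) (h4 : G.Adj d a)
    (n1 : a ≠ c) (n2 : b ≠ d) :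
    (f a b < f b c ∧ f c d < f d a) ∨ (f b c < f a b ∧ f d a < f c d) := by
  have := h1.ne
  have := h2.ne
  have := h3.ne
  have := h4.ne
  obtain ⟨i, j, hi, hj, hij, k1, k2, k3, k4⟩ := h a
    (.cons h1 (.cons h2 (.cons h3 (.cons h4 .nil)))) (by
      rw [SimpleGraph.Walk.isCycle_def, SimpleGraph.Walk.isTrail_def]
      simp
      grind)
  simp only [SimpleGraph.Walk.length_cons, SimpleGraph.Walk.length_nil] at hi hj k1 k2 k3 k4
  interval_cases i <;> interval_cases j <;> simp at hij k1 k2 k3 k4 <;> grind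

theorem c5 {G : SimpleGraph V} {f : V → V → ℝ} (h : GoodW G f)
    {a b c d e : V} (h1 : G.Adj a b) (h2 : G.Adj b c) (h3 : G.Adj c d) (h4 : G.Adj d e)
    (h5 : G.Adj e a) (n1 : a ≠ c) (n2 : a ≠ d) (n3 : b ≠ d) (n4 : b ≠ e) (n5 : c ≠ e) :
    ¬ (f a b < f b c ∧ f b c < f c d ∧ f e a < f d e) ∧
      ¬ (f b c < f a b ∧ f c d < f b c ∧ f d e < f e a) := by
  have := h1.ne
  have := h2.ne
  have := h3.ne
  have := h4.ne
  have := h5.ne
  obtain ⟨i, j, hi, hj, hij, k1, k2, k3, k4⟩ := h a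
    (.cons h1 (.cons h2 (.cons h3 (.cons h4 (.cons h5 .nil))))) (by
      rw [SimpleGraph.Walk.isCycle_def, SimpleGraph.Walk.isTrail_def]
      simp
      grind)
  simp only [SimpleGraph.Walk.length_cons, SimpleGraph.Walk.length_nil] at hi hj k1 k2 k3 k4
  interval_cases i <;> interval_cases j <;> simp at hij k1 k2 k3 k4 <;> grind

end Pool.Agent.H.MP_f027b3_co
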