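import Mathlib
import Pool.Agent.H.MP_f027b3_co.A

namespace Pool.Agent.H.MP_f027b3_co

open Sum

variable {B K : Type}

open Classical in
noncomputable def lab (hi : K → B) (m : B → B → ℝ) (rk : K → ℕ) (M : ℝ) : B ⊕ K → B ⊕ K → ℝ
  | inl a, inl b => m a b
  | inr k, inl b => if b = hi k then M + rk k + 1 else -(rk k : ℝ) - 1
  | inl b, inr k => if b = hi k then M + rk k + 1 else -(rk k : ℝ) - 1
  | inr _, inr _ => 0

structure Hyp (H : SimpleGraph (B ⊕ K)) (lo hi : K → B) (m : B → B → ℝ) (rk : K → ℕ) (M : ℝ) :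
    Prop where
  kk : ∀ k k', ¬ H.Adj (inr k) (inr k')
  kb : ∀ k b, H.Adj (inr k) (inl b) → b = lo k ∨ b = hi k
  lh : ∀ k, lo k ≠ hi k
  inj : ∀ k k', lo k = lo k' → hi k = hi k' → k = k'
  rki : Function.Injective rk
  m0 : ∀ a b, 0 ≤ m a b
  m1 : ∀ a b, m a b ≤ M
  ms : ∀ a b, m a b = m b a
  mi : ∀ a b c d, H.Adj (inl a) (inl b) → H.Adj (inl c) (inl d) → m a b = m c d →
    (a = c ∧ b = d) ∨ (a = d ∧ b = c)

variable {H : SimpleGraph (B ⊕ K)} {lo hi : K → B} {m : B → B → ℝ} {rk : K → ℕ} {M : ℝ}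

theorem Hyp.symm (h : Hyp H lo hi m rk M) (x y : B ⊕ K) :
    lab hi m rk M x y = lab hi m rk M y x := by
  rcases x with a | k <;> rcases y with b | k'
  exacts [h.ms a b, rfl, rfl, rfl]

theorem lab_hi (k : K) : lab hi m rk M (inr k) (inl (hi k)) = M + rk k + 1 := by simp [lab]

theorem Hyp.lab_lo (h : Hyp H lo hi m rk M) (k : K) :
    lab hi m rk M (inr k) (inl (lo k)) = -(rk k : ℝ) - 1 := by simp [lab, h.lh k]

theorem Hyp.injE (h : Hyp H lo hi m rk M) (x y z w : B ⊕ K) (h1 : H.Adj x y) (h2 : H.Adj z w)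
    (e : lab hi m rk M x y = lab hi m rk M z w) : (x = z ∧ y = w) ∨ (x = w ∧ y = z) := by
  have A : ∀ k b a c, H.Adj (inr k) (inl b) → lab hi m rk M (inr k) (inl b) ≠ m a c := by
    intro k b a c hk
    have := h.m0 a c
    have := h.m1 a c
    have : (0 : ℝ) ≤ rk k := Nat.cast_nonneg _
    rcases h.kb k b hk with rfl | rfl
    · rw [h.lab_lo]; linarith
    · rw [lab_hi]; linarith
  have C : ∀ k b k' b', H.Adj (inr k) (inl b) → H.Adj (inr k') (inl b') →
      lab hi m rk M (inr k) (inl b) = lab hi m rk M (inr k') (inl b') → k = k' ∧ b = b' := by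
    intro k b k' b' hk hk' e
    have := (h.m0 b b).trans (h.m1 b b)
    have : (0 : ℝ) ≤ rk k := Nat.cast_nonneg _
    have : (0 : ℝ) ≤ rk k' := Nat.cast_nonneg _
    rcases h.kb k b hk with rfl | rfl <;> rcases h.kb k' b' hk' with rfl | rfl <;>
      simp only [h.lab_lo, lab_hi] at e
    · have : k = k' := h.rki (by exact_mod_cast (by linarith : (rk k : ℝ) = rk k'))
      subst this; exact ⟨rfl, rfl⟩
    · linarith
    · linarith
    · have : k = k' := h.rki (by exact_mod_cast (by linarith : (rk k : ℝ) = rk k'))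
      subst this; exact ⟨rfl, rfl⟩
  rcases x with a | k <;> rcases y with b | k' <;> rcases z with c | l <;> rcases w with d | l'
  all_goals first
    | exact absurd h1 (h.kk _ _)
    | exact absurd h2 (h.kk _ _)
    | skip
  · simpa using h.mi a b c d h1 h2 e
  · exact absurd e.symm (A _ _ _ _ h2.symm)
  · exact absurd e.symm (A _ _ _ _ h2)
  · exact absurd e (A _ _ _ _ h1.symm)
  · obtain ⟨rfl, rfl⟩ := C _ _ _ _ h1.symm h2.symm e; simp
  · obtain ⟨rfl, rfl⟩ := C _ _ _ _ h1.symm h2 e; simp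
  · exact absurd e (A _ _ _ _ h1)
  · obtain ⟨rfl, rfl⟩ := C _ _ _ _ h1 h2.symm e; simp
  · obtain ⟨rfl, rfl⟩ := C _ _ _ _ h1 h2 e; simp

def NoInc (H : SimpleGraph (B ⊕ K)) (lo hi : K → B) (m : B → B → ℝ) : Prop :=
  ∀ (k : K) (w : ℕ → B) (l : ℕ), H.Adj (inr k) (inl (lo k)) → H.Adj (inr k) (inl (hi k)) →
    w 0 = lo k → w l = hi k → (∀ i < l, H.Adj (inl (w i)) (inl (w (i + 1)))) →
    (∀ i, i + 1 < l → m (w i) (w (i + 1)) < m (w (i + 1)) (w (i + 1 + 1))) → False

theorem Hyp.orient (h : Hyp H lo hi m rk M) (hinc : NoInc H lo hi m) {L : ℕ} {v : ℤ → B ⊕ K}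
    (hc : Cyc H L v) (t0 : ℤ) (k : K) (h0 : v t0 = inr k)
    (hmax : ∀ t k', v t = inr k' → rk k' ≤ rk k)
    (h1 : v (t0 + 1) = inl (lo k)) (h2 : v (t0 - 1) = inl (hi k)) : Two (lab hi m rk M) L v := by
  obtain ⟨c1, c2, c3, c4⟩ := hc
  obtain ⟨s, hs⟩ : ∃ s : ℤ → ℝ, ∀ t, s t = lab hi m rk M (v t) (v (t + 1)) := ⟨_, fun _ => rfl⟩
  have hM := (h.m0 (lo k) (lo k)).trans (h.m1 _ _)
  have hrk : ∀ k, (0 : ℝ) ≤ rk k := fun k => Nat.cast_nonneg _
  have e1 : v (t0 + L - 1) = inl (hi k) := by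
    rw [← h2, ← c2 (t0 - 1)]; congr 1; ring
  have e2 : v (t0 + L) = inr k := by rw [c2, h0]
  have s0 : s t0 = -(rk k : ℝ) - 1 := by rw [hs, h0, h1, h.lab_lo]
  have s1 : s (t0 + L - 1) = M + rk k + 1 := by
    rw [hs, e1, sub_add_cancel, e2, h.symm, lab_hi]
  have s2 : s (t0 + L) = s t0 := by
    rw [hs, hs, c2, show t0 + L + 1 = t0 + 1 + L by ring, c2]
  have mid : ∀ t k' b, (v t = inr k' ∧ v (t + 1) = inl b) ∨ (v t = inl b ∧ v (t + 1) = inr k') →
      (b = lo k' ∧ s t = -(rk k' : ℝ) - 1) ∨ (b = hi k' ∧ s t = M + rk k' + 1) := by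
    intro t k' b hb
    have ha := c3 t
    have : H.Adj (inr k') (inl b) ∧ s t = lab hi m rk M (inr k') (inl b) := by
      rcases hb with ⟨a, b⟩ | ⟨a, b⟩
      · rw [hs, a, b]; rw [a, b] at ha; exact ⟨ha, rfl⟩
      · rw [hs, a, b]; rw [a, b] at ha; exact ⟨ha.symm, rfl⟩
    rcases h.kb k' b this.1 with rfl | rfl
    · exact Or.inl ⟨rfl, by rw [this.2, h.lab_lo]⟩
    · exact Or.inr ⟨rfl, by rw [this.2, lab_hi]⟩
  have nb : ∀ t k', v t = inr k' → ∃ a b, v (t - 1) = inl a ∧ v (t + 1) = inl b := by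
    intro t k' hk
    have a1 := c3 t
    have a2 := c3 (t - 1)
    rw [sub_add_cancel] at a2
    rcases e : v (t - 1) with a | l
    · rcases e' : v (t + 1) with b | l'
      · exact ⟨a, b, rfl, rfl⟩
      · rw [hk, e'] at a1; exact absurd a1 (h.kk _ _)
    · rw [hk, e] at a2; exact absurd a2 (h.kk _ _)
  have bd : ∀ t, t0 < t → t + 1 < t0 + L → -(rk k : ℝ) - 1 < s t ∧ s t < M + rk k + 1 := by
    intro t a b
    have lt : ∀ t' k', t0 < t' → t' < t0 + L → v t' = inr k' → (rk k' : ℝ) < rk k := by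
      intro t' k' a b e
      have : rk k' ≠ rk k := fun e' => c4 t0 t' a b (by rw [h0, e, h.rki e'])
      have := hmax t' k' e
      exact_mod_cast (by omega : rk k' < rk k)
    have := hrk k
    rcases e : v t with x | l <;> rcases e' : v (t + 1) with y | l'
    · rw [hs, e, e']
      have := h.m0 x y
      have := h.m1 x y
      simp only [lab]
      constructor <;> linarith
    · have := lt (t + 1) l' (by omega) b e'
      have := hrk l'
      rcases mid t l' x (Or.inr ⟨e, e'⟩) with ⟨-, q⟩ | ⟨-, q⟩ <;> rw [q] <;>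
        constructor <;> linarith
    · have := lt t l a (by omega) e
      have := hrk l
      rcases mid t l y (Or.inl ⟨e, e'⟩) with ⟨-, q⟩ | ⟨-, q⟩ <;> rw [q] <;>
        constructor <;> linarith
    · have := c3 t
      rw [e, e'] at this; exact absurd this (h.kk _ _)
  have lm : ∀ t, s (t + 1) < s t → s (t - 1) < s t → LM (lab hi m rk M) v t := by
    intro t a b
    rw [hs, hs] at a b
    rw [sub_add_cancel] at b
    exact ⟨a, b⟩
  have top : LM (lab hi m rk M) v (t0 + L - 1) := by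
    apply lm
    · rw [sub_add_cancel, s2, s0, s1]; have := hrk k; linarith
    · rw [s1]; exact (bd _ (by omega) (by omega)).2
  by_contra hno
  have ne : ∀ t, s t ≠ s (t + 1) := by
    intro t e
    rw [hs, hs] at e
    rcases h.injE _ _ _ _ (c3 t) (c3 (t + 1)) e with ⟨a, -⟩ | ⟨a, -⟩
    · exact (c3 t).ne a
    · exact c4 t (t + 1 + 1) (by omega) (by omega) a
  have inc : ∀ t, t0 ≤ t → t + 1 < t0 + L → s t < s (t + 1) := by
    intro t ht
    induction t, ht using Int.leInduction with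
    | base => intro _; rw [s0]; exact (bd _ (by omega) (by omega)).1
    | succ t ht ih =>
      intro a
      by_contra b
      have b' : s (t + 1 + 1) < s (t + 1) := lt_of_le_of_ne (not_lt.1 b) (ne _).symm
      exact hno ⟨t + 1, t0 + L - 1, by omega, by omega,
        lm _ b' (by rw [add_sub_cancel_right]; exact ih (by omega)), top⟩
  have dir : ∀ t k', t0 < t → t < t0 + L → v t = inr k' →
      v (t - 1) = inl (lo k') ∧ v (t + 1) = inl (hi k') ∧ s (t - 1) < 0 ∧ M < s t := by
    intro t k' a b e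
    obtain ⟨x, y, hx, hy⟩ := nb t k' e
    have q := inc (t - 1) (by omega) (by omega)
    rw [sub_add_cancel] at q
    have := hrk k'
    rcases mid (t - 1) k' x (Or.inr ⟨hx, by rw [sub_add_cancel, e]⟩) with ⟨rfl, q1⟩ | ⟨rfl, q1⟩ <;>
      rcases mid t k' y (Or.inl ⟨e, hy⟩) with ⟨rfl, q2⟩ | ⟨rfl, q2⟩
    · linarith
    · exact ⟨hx, hy, by linarith, by linarith⟩
    · linarith
    · linarith
  have base : ∀ t, t0 < t → t < t0 + L → ∃ b, v t = inl b := by
    intro t a b
    rcases e : v t with x | k'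
    · exact ⟨x, rfl⟩
    exfalso
    obtain ⟨d1, d2, d3, d4⟩ := dir t k' a b e
    have n1 : t ≠ t0 + 1 := by rintro rfl; rw [h1] at e; cases e
    have n2 : t ≠ t0 + L - 1 := by rintro rfl; rw [e1] at e; cases e
    have g1 : t = t0 + 2 := by
      by_contra g
      have q := inc (t - 1 - 1) (by omega) (by omega)
      rw [sub_add_cancel] at q
      rcases e' : v (t - 1 - 1) with y | l
      · rw [hs (t - 1 - 1), sub_add_cancel, e', d1] at q
        have := h.m0 y (lo k')
        simp only [lab] at q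
        linarith
      · have := (dir _ l (by omega) (by omega) e').2.2.2
        linarith
    have g2 : t = t0 + L - 2 := by
      by_contra g
      have q := inc t (by omega) (by omega)
      rcases e' : v (t + 1 + 1) with y | l
      · rw [hs (t + 1), e', d2] at q
        have := h.m1 (hi k') y
        simp only [lab] at q
        linarith
      · have := (dir _ l (by omega) (by omega) e').2.2.1
        rw [add_sub_cancel_right] at this
        linarith
    have f1 : lo k' = lo k := by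
      rw [show t - 1 = t0 + 1 by omega, h1] at d1; exact (inl_injective d1).symm
    have f2 : hi k' = hi k := by
      rw [show t + 1 = t0 + L - 1 by omega, e1] at d2; exact (inl_injective d2).symm
    exact c4 t0 t a b (by rw [h0, e, h.inj _ _ f1 f2])
  obtain ⟨w, hw⟩ : ∃ w : ℕ → B, ∀ i : ℕ, i + 1 < L → v (t0 + 1 + i) = inl (w i) := by
    refine ⟨fun i => Sum.elim id (fun _ => lo k) (v (t0 + 1 + i)), fun i hi => ?_⟩
    obtain ⟨b, hb⟩ := base (t0 + 1 + i) (by omega) (by omega)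
    simp only [hb, Sum.elim_inl, id]
  have hw' : ∀ i : ℕ, i + 1 + 1 < L → v (t0 + 1 + i + 1) = inl (w (i + 1)) := by
    intro i hi
    rw [← hw _ hi]; congr 1; push_cast; ring
  refine hinc k w (L - 2) ?_ ?_ ?_ ?_ ?_ ?_
  · rw [← h0, ← h1]; exact c3 t0
  · have := c3 (t0 - 1)
    rw [sub_add_cancel, h0, h2] at this
    exact this.symm
  · have := hw 0 (by omega)
    simp only [Nat.cast_zero, add_zero, h1] at this
    exact (inl_injective this).symm
  · have := hw (L - 2) (by omega)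
    rw [show t0 + 1 + ((L - 2 : ℕ) : ℤ) = t0 + L - 1 by omega, e1] at this
    exact (inl_injective this).symm
  · intro i hi
    rw [← hw i (by omega), ← hw' i (by omega)]
    exact c3 _
  · intro i hi
    have q := inc (t0 + 1 + i) (by omega) (by omega)
    have e3 : v (t0 + 1 + i + 1 + 1) = inl (w (i + 1 + 1)) := by
      rw [← hw _ (by omega)]; congr 1; push_cast; ring
    rw [hs, hs, hw i (by omega), hw' i (by omega), e3] at q
    exact q

theorem Hyp.good [Finite K] (h : Hyp H lo hi m rk M) (hinc : NoInc H lo hi m)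
    (hbase : ∀ L v, Cyc H L v → (∀ t, ∃ b, v t = inl b) → Two (lab hi m rk M) L v) :
    GoodS H (lab hi m rk M) := by
  intro L v hc
  by_cases hb : ∀ t, ∃ b, v t = inl b
  · exact hbase L v hc hb
  have hne : {k | ∃ t, v t = inr k}.Nonempty := by
    push Not at hb
    obtain ⟨t, ht⟩ := hb
    rcases e : v t with b | k
    · exact absurd e (ht b)
    · exact ⟨k, t, e⟩
  obtain ⟨k, ⟨t0, h0⟩, hmax⟩ := Set.exists_max_image _ rk (Set.toFinite _) hne
  have a1 := hc.2.2.1 t0
  have a2 := hc.2.2.1 (t0 - 1)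
  rw [sub_add_cancel] at a2
  have a3 := hc.2.2.2 (t0 - 1) (t0 + 1) (by omega) (by have := hc.1; omega)
  rcases e : v (t0 - 1) with a | l
  swap
  · rw [h0, e] at a2; exact absurd a2 (h.kk _ _)
  rcases e' : v (t0 + 1) with b | l'
  swap
  · rw [h0, e'] at a1; exact absurd a1 (h.kk _ _)
  rw [h0, e'] at a1
  rw [h0, e] at a2
  rw [e, e'] at a3
  rcases h.kb k a a2.symm with rfl | rfl <;> rcases h.kb k b a1 with rfl | rfl
  · exact absurd rfl a3
  · refine Two.of_rev h.symm (h.orient hinc hc.rev (-t0) k (by simpa using h0)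
      (fun t k' e => hmax k' ⟨_, e⟩) ?_ ?_)
    · rw [← e]; congr 1; ring
    · rw [← e']; congr 1; ring
  · exact h.orient hinc hc t0 k h0 (fun t k' e => hmax k' ⟨_, e⟩) e' e
  · exact absurd rfl a3

end Pool.Agent.H.MP_f027b3_co
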