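import Mathlib
import Pool.Agent.H.MP_f027b3_co.B

namespace Pool.Agent.H.MP_f027b3_co

open Sum

def lbl (n md p : ℕ) : ℕ :=
  if md = 0 then (if p % 2 = 1 then 2 * n + p else p)
  else if p = 1 then n + 1
  else if md = 1 then (if p = 0 then 0 else if p % 2 = 0 then 2 * n + p else p)
  else (if p = 0 then 2 * n else if p % 2 = 0 then p else 2 * n + p)

def St (n md p p' x : ℕ) : Prop :=
  p < n ∧ p' < n ∧ ((p' = p + 1 ∧ x = lbl n md p) ∨ (md ≠ 0 ∧ p + 1 = n ∧ p' = 0 ∧ x = lbl n md p) ∨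
    (p = p' + 1 ∧ x = lbl n md p') ∨ (md ≠ 0 ∧ p' + 1 = n ∧ p = 0 ∧ x = lbl n md p'))

theorem lbl_spec (n md p : ℕ) (h : p < n) : lbl n md p % n = p ∧ lbl n md p ≤ 3 * n := by
  have e1 : (2 * n + p) % n = p := by rw [Nat.mul_add_mod_self_right, Nat.mod_eq_of_lt h]
  have e2 := Nat.mod_eq_of_lt h
  unfold lbl
  split_ifs with a b c d e f g
  · exact ⟨e1, by omega⟩
  · exact ⟨e2, by omega⟩
  · subst c; exact ⟨by rw [Nat.add_mod_left, e2], by omega⟩
  · subst e; simp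
  · exact ⟨e1, by omega⟩
  · exact ⟨e2, by omega⟩
  · subst g; exact ⟨by simp, by omega⟩
  · exact ⟨e2, by omega⟩
  · exact ⟨e1, by omega⟩

theorem spec (n md p : ℕ) :
    (md = 0 ∧ p % 2 = 1 ∧ lbl n md p = 2 * n + p) ∨ (md = 0 ∧ p % 2 = 0 ∧ lbl n md p = p) ∨
    (md ≠ 0 ∧ p = 1 ∧ lbl n md p = n + 1) ∨ (md = 1 ∧ p = 0 ∧ lbl n md p = 0) ∨
    (md = 1 ∧ 2 ≤ p ∧ p % 2 = 0 ∧ lbl n md p = 2 * n + p) ∨
    (md = 1 ∧ 3 ≤ p ∧ p % 2 = 1 ∧ lbl n md p = p) ∨ (2 ≤ md ∧ p = 0 ∧ lbl n md p = 2 * n) ∨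
    (2 ≤ md ∧ 2 ≤ p ∧ p % 2 = 0 ∧ lbl n md p = p) ∨
    (2 ≤ md ∧ 3 ≤ p ∧ p % 2 = 1 ∧ lbl n md p = 2 * n + p) := by
  unfold lbl
  split_ifs with a b c d e f g h
  · exact .inl ⟨by omega, by omega, rfl⟩
  · exact .inr (.inl ⟨by omega, by omega, rfl⟩)
  · exact .inr (.inr (.inl ⟨by omega, by omega, rfl⟩))
  · exact .inr (.inr (.inr (.inl ⟨by omega, by omega, rfl⟩)))
  · exact .inr (.inr (.inr (.inr (.inl ⟨by omega, by omega, by omega, rfl⟩))))
  · exact .inr (.inr (.inr (.inr (.inr (.inl ⟨by omega, by omega, by omega, rfl⟩)))))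
  · exact .inr (.inr (.inr (.inr (.inr (.inr (.inl ⟨by omega, by omega, rfl⟩))))))
  · exact .inr (.inr (.inr (.inr (.inr (.inr (.inr (.inl ⟨by omega, by omega, by omega, rfl⟩)))))))
  · exact .inr (.inr (.inr (.inr (.inr (.inr (.inr (.inr ⟨by omega, by omega, by omega, rfl⟩)))))))

theorem cmp {n md p q : ℕ} (hn : 7 ≤ n) (ho : n % 2 = 1) (hp : p < n) (hq : q < n)
    (hpq : q = p + 1 ∨ p = q + 1 ∨ (md ≠ 0 ∧ p + 1 = n ∧ q = 0) ∨ (md ≠ 0 ∧ q + 1 = n ∧ p = 0))
    (h : lbl n md p < lbl n md q) :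
    (lbl n md p < n ∧ 2 * n ≤ lbl n md q) ∨ (md = 1 ∧ p = 0 ∧ q = 1 ∧ lbl n md q = n + 1) ∨
      (md = 1 ∧ p = 1 ∧ q = 2 ∧ 2 * n ≤ lbl n md q ∧ lbl n md p < 2 * n) ∨
      (2 ≤ md ∧ p = 2 ∧ q = 1 ∧ lbl n md q = n + 1) ∨
      (2 ≤ md ∧ p = 1 ∧ q = 0 ∧ 2 * n ≤ lbl n md q ∧ lbl n md p < 2 * n) := by
  rcases spec n md p with a | a | a | a | a | a | a | a | a <;>
    rcases spec n md q with b | b | b | b | b | b | b | b | b
  all_goals first
    | (exfalso; omega)
    | (left; omega)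
    | (right; left; omega)
    | (right; right; left; omega)
    | (right; right; right; left; omega)
    | (right; right; right; right; omega)

theorem two_step {n md p0 p1 p2 x1 x2 : ℕ} (hn : 7 ≤ n) (ho : n % 2 = 1) (a : St n md p0 p1 x1)
    (b : St n md p1 p2 x2) (h : x1 < x2) :
    x1 < n ∧ 2 * n ≤ x2 ∨ (md = 1 ∧ p0 = 0 ∧ p1 = 1 ∧ p2 = 2 ∧ x2 = n + 1) ∨
      (md = 1 ∧ p0 = 1 ∧ p1 = 2 ∧ p2 = 3 ∧ 2 * n ≤ x2 ∧ x1 < 2 * n) ∨
      (md ≠ 0 ∧ md ≠ 1 ∧ p0 = 3 ∧ p1 = 2 ∧ p2 = 1 ∧ x2 = n + 1) ∨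
      (md ≠ 0 ∧ md ≠ 1 ∧ p0 = 2 ∧ p1 = 1 ∧ p2 = 0 ∧ 2 * n ≤ x2 ∧ x1 < 2 * n) := by
  obtain ⟨a1, a2, a⟩ := a
  obtain ⟨-, b2, b⟩ := b
  rcases a with ⟨a, rfl⟩ | ⟨a, a', a'', rfl⟩ | ⟨a, rfl⟩ | ⟨a, a', a'', rfl⟩ <;>
    rcases b with ⟨b, rfl⟩ | ⟨b, b', b'', rfl⟩ | ⟨b, rfl⟩ | ⟨b, b', b'', rfl⟩
  all_goals first
    | (exfalso; omega)
    | (exfalso; revert h; rw [show p0 = p2 by omega]; exact lt_irrefl _)
    | (rcases cmp hn ho (by omega) (by omega) (by omega) h with c | c | c | c | c <;> first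
        | (exfalso; omega)
        | (left; omega)
        | (right; left; omega)
        | (right; right; left; omega)
        | (right; right; right; left; omega)
        | (right; right; right; right; omega))

variable {n : ℕ}

def lo0 (k : ZMod n × Bool) : ZMod n := if k.2 then k.1 else k.1 + 1 + 1 + 1
def hi0 (k : ZMod n × Bool) : ZMod n := if k.2 then k.1 + 1 + 1 + 1 else k.1

def rel0 : ZMod n ⊕ ZMod n × Bool → ZMod n ⊕ ZMod n × Bool → Prop
  | inl a, inl b => a ≠ b ∧ (b = a + 1 ∨ a = b + 1)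
  | inr k, inl b => b = lo0 k ∨ b = hi0 k
  | inl b, inr k => b = lo0 k ∨ b = hi0 k
  | inr _, inr _ => False

def G0 (n : ℕ) : SimpleGraph (ZMod n ⊕ ZMod n × Bool) where
  Adj := rel0
  symm := ⟨by
    rintro (a | k) (b | l) h
    exacts [⟨h.1.symm, h.2.symm⟩, h, h, h]⟩
  loopless := ⟨by
    rintro (a | k) h
    exacts [h.1 rfl, h]⟩

def pos (r a : ZMod n) : ℕ := (a - r).val

theorem pos_lt [NeZero n] (r a : ZMod n) : pos r a < n := ZMod.val_lt _

theorem pos_inj [NeZero n] (r : ZMod n) {a b : ZMod n} (h : pos r a = pos r b) : a = b :=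
  sub_left_injective (ZMod.val_injective n h)

theorem pos_self (r : ZMod n) : pos r r = 0 := by simp [pos]

theorem pos_succ [NeZero n] (hn : 7 ≤ n) (r a : ZMod n) :
    pos r (a + 1) = pos r a + 1 ∨ (pos r a + 1 = n ∧ pos r (a + 1) = 0) := by
  have : Fact (1 < n) := ⟨by omega⟩
  have e : pos r (a + 1) = (pos r a + 1) % n := by
    unfold pos
    rw [show a + 1 - r = a - r + 1 by ring, ZMod.val_add, ZMod.val_one]
  have := pos_lt r a
  by_cases h : pos r a + 1 < n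
  · left; rw [e, Nat.mod_eq_of_lt h]
  · right
    have h' : pos r a + 1 = n := by omega
    exact ⟨h', by rw [e, h', Nat.mod_self]⟩

open Classical in
noncomputable def m0 (md : ℕ) (r a b : ZMod n) : ℝ :=
  if b = a + 1 then lbl n md (pos r a) else if a = b + 1 then lbl n md (pos r b) else 0

theorem three [NeZero n] (hn : 7 ≤ n) (r a : ZMod n) :
    pos r (a + 1 + 1 + 1) = pos r a + 3 ∨ pos r (a + 1 + 1 + 1) + n = pos r a + 3 := by
  have := pos_succ hn r a
  have := pos_succ hn r (a + 1)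
  have := pos_succ hn r (a + 1 + 1)
  omega

theorem nn2 [NeZero n] (hn : 7 ≤ n) {a b : ZMod n} (h : b = a + 1) : a ≠ b + 1 := by
  intro e
  have h1 := pos_succ hn 0 a
  have h2 := pos_succ hn 0 b
  rw [← h] at h1
  rw [← e] at h2
  omega

section
variable [NeZero n] (hn : 7 ≤ n) (ho : n % 2 = 1) {H : SimpleGraph (ZMod n ⊕ ZMod n × Bool)}
  (hH : H ≤ G0 n) (md : ℕ) (r : ZMod n) (hw : md = 0 → ¬ H.Adj (inl (r - 1)) (inl r))
include hn hH

include hw in
theorem st {a b : ZMod n} (h : H.Adj (inl a) (inl b)) :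
    ∃ x : ℕ, m0 md r a b = x ∧ St n md (pos r a) (pos r b) x := by
  have wrap : ∀ a b : ZMod n, H.Adj (inl a) (inl b) → b = a + 1 → pos r b = 0 → md ≠ 0 := by
    intro a b h e e' hm
    have : b = r := pos_inj r (by rw [e', pos_self])
    subst this
    exact hw hm (by rw [show b - 1 = a by rw [e]; ring]; exact h)
  rcases (hH h).2 with e | e
  · refine ⟨lbl n md (pos r a), by simp [m0, e], pos_lt _ _, pos_lt _ _, ?_⟩
    rcases pos_succ hn r a with q | q <;> rw [← e] at q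
    · exact Or.inl ⟨q, rfl⟩
    · exact Or.inr (Or.inl ⟨wrap a b h e q.2, q.1, q.2, rfl⟩)
  · refine ⟨lbl n md (pos r b), by rw [m0, if_neg (nn2 hn e), if_pos e], pos_lt _ _, pos_lt _ _, ?_⟩
    rcases pos_succ hn r b with q | q <;> rw [← e] at q
    · exact Or.inr (Or.inr (Or.inl ⟨q, rfl⟩))
    · exact Or.inr (Or.inr (Or.inr ⟨wrap b a h.symm e q.2, q.1, q.2, rfl⟩))

theorem hyp (rk : ZMod n × Bool → ℕ) (hrk : Function.Injective rk) :
    Hyp H lo0 hi0 (m0 md r) rk (3 * n) where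
  kk k k' h := hH h
  kb k b h := hH h
  lh k e := by
    have := three hn 0 k.1
    unfold lo0 hi0 at e
    split_ifs at e
    · rw [← e] at this; omega
    · rw [e] at this; omega
  inj := by
    rintro ⟨a, _ | _⟩ ⟨b, _ | _⟩ h1 h2 <;> simp only [lo0, hi0, if_true, Bool.false_eq_true,
      if_false] at h1 h2
    · rw [h2]
    · have t1 := three hn 0 a
      have t2 := three hn 0 b
      rw [h1] at t1
      rw [← h2] at t2
      omega
    · have t1 := three hn 0 a
      have t2 := three hn 0 b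
      rw [h2] at t1
      rw [← h1] at t2
      omega
    · rw [h1]
  rki := hrk
  m0 a b := by unfold m0; split_ifs <;> positivity
  m1 a b := by
    unfold m0
    split_ifs
    · exact_mod_cast (lbl_spec n md _ (pos_lt r a)).2
    · exact_mod_cast (lbl_spec n md _ (pos_lt r b)).2
    · positivity
  ms a b := by
    unfold m0
    by_cases h : b = a + 1
    · rw [if_pos h, if_neg (nn2 hn h), if_pos h]
    · by_cases h' : a = b + 1
      · rw [if_neg h, if_pos h', if_pos h']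
      · rw [if_neg h, if_neg h', if_neg h', if_neg h]
  mi a b c d h1 h2 e := by
    have key : ∀ x y : ZMod n, (lbl n md (pos r x) : ℝ) = lbl n md (pos r y) → x = y := by
      intro x y e
      have e' : lbl n md (pos r x) = lbl n md (pos r y) := by exact_mod_cast e
      apply pos_inj r
      rw [← (lbl_spec n md _ (pos_lt r x)).1, e', (lbl_spec n md _ (pos_lt r y)).1]
    unfold m0 at e
    rcases (hH h1).2 with q | q <;> rcases (hH h2).2 with q' | q'
    · rw [if_pos q, if_pos q'] at e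
      have := key _ _ e
      subst this; exact Or.inl ⟨rfl, q.trans q'.symm⟩
    · rw [if_pos q, if_neg (nn2 hn q'), if_pos q'] at e
      have := key _ _ e
      subst this; exact Or.inr ⟨rfl, q.trans q'.symm⟩
    · rw [if_neg (nn2 hn q), if_pos q, if_pos q'] at e
      have := key _ _ e
      subst this; exact Or.inr ⟨q.trans q'.symm, rfl⟩
    · rw [if_neg (nn2 hn q), if_pos q, if_neg (nn2 hn q'), if_pos q'] at e
      have := key _ _ e
      subst this; exact Or.inl ⟨q.trans q'.symm, rfl⟩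

include hw ho in
theorem noinc (hd : md ≠ 0 → ¬ (H.Adj (inr (r, decide (md = 1))) (inl (lo0 (r, decide (md = 1)))) ∧
      H.Adj (inr (r, decide (md = 1))) (inl (hi0 (r, decide (md = 1)))))) :
    NoInc H lo0 hi0 (m0 md r) := by
  intro k w l k1 k2 w0 wl hadj hinc
  have t := three hn r k.1
  have lh : pos r (w l) = pos r (w 0) + 3 ∨ pos r (w l) + n = pos r (w 0) + 3 ∨
      pos r (w 0) = pos r (w l) + 3 ∨ pos r (w 0) + n = pos r (w l) + 3 := by
    rw [w0, wl]
    unfold lo0 hi0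
    split_ifs <;> omega
  rcases Nat.lt_or_ge l 3 with h | h
  · interval_cases l
    · omega
    · obtain ⟨x, -, -, -, q⟩ := st hn hH md r hw (hadj 0 (by omega))
      simp only [zero_add] at q
      omega
    · obtain ⟨x, -, -, -, q⟩ := st hn hH md r hw (hadj 0 (by omega))
      obtain ⟨x', -, -, -, q'⟩ := st hn hH md r hw (hadj 1 (by omega))
      simp only [zero_add, Nat.reduceAdd] at q q'
      omega
  obtain ⟨x1, e1, q1⟩ := st hn hH md r hw (hadj 0 (by omega))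
  obtain ⟨x2, e2, q2⟩ := st hn hH md r hw (hadj 1 (by omega))
  obtain ⟨x3, e3, q3⟩ := st hn hH md r hw (hadj 2 (by omega))
  have i1 := hinc 0 (by omega)
  have i2 := hinc 1 (by omega)
  simp only [zero_add, Nat.reduceAdd] at e1 q1 e2 q2 e3 q3 i1 i2
  rw [e1, e2] at i1
  rw [e2, e3] at i2
  have j1 : x1 < x2 := by exact_mod_cast i1
  have j2 : x2 < x3 := by exact_mod_cast i2
  have s1 := two_step hn ho q1 q2 j1
  have s2 := two_step hn ho q2 q3 j2
  rcases Nat.lt_or_ge 3 l with h' | h'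
  · obtain ⟨x4, e4, q4⟩ := st hn hH md r hw (hadj 3 (by omega))
    have i3 := hinc 2 (by omega)
    simp only [Nat.reduceAdd] at e4 q4 i3
    rw [e3, e4] at i3
    have j3 : x3 < x4 := by exact_mod_cast i3
    have s3 := two_step hn ho q3 q4 j3
    omega
  have : l = 3 := by omega
  subst this
  have hk : ∀ k' : ZMod n × Bool, pos r (lo0 k') = pos r (w 0) → pos r (hi0 k') = pos r (w 3) →
      k' = k := fun k' a b =>
    (hyp hn hH md r (fun k => (Finite.equivFin _ k).val) (fun a b e =>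
      (Finite.equivFin _).injective (Fin.ext e))).inj k' k (by rw [← w0]; exact pos_inj r a)
      (by rw [← wl]; exact pos_inj r b)
  have t' := three hn r r
  rw [pos_self] at t'
  have hm : md ≠ 0 := by omega
  apply hd hm
  rw [hk (r, decide (md = 1)) ?_ ?_]
  · exact ⟨k1, k2⟩
  · by_cases e : md = 1 <;> simp only [lo0, e, decide_true, decide_false, if_true,
      Bool.false_eq_true, if_false, pos_self] <;> omega
  · by_cases e : md = 1 <;> simp only [hi0, e, decide_true, decide_false, if_true,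
      Bool.false_eq_true, if_false, pos_self] <;> omega

include hw ho in
theorem base1 (rk : ZMod n × Bool → ℕ) {L : ℕ} {v : ℤ → ZMod n ⊕ ZMod n × Bool} (hc : Cyc H L v)
    (w : ℤ → ZMod n) (hv : ∀ t, v t = inl (w t)) (t : ℤ) (h0 : pos r (w t) + 1 = n)
    (h1 : pos r (w (t + 1)) + 2 = n) (hm : md ≠ 0) :
    Two (lab hi0 (m0 md r) rk (3 * n)) L v := by
  have h3 := hc.1
  have S : ∀ t, ∃ x : ℕ, lab hi0 (m0 md r) rk (3 * n) (v t) (v (t + 1)) = x ∧
      St n md (pos r (w t)) (pos r (w (t + 1))) x := by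
    intro t
    have := hc.2.2.1 t
    rw [hv, hv] at this ⊢
    exact st hn hH md r hw this
  have N : ∀ t, pos r (w t) ≠ pos r (w (t + 1 + 1)) := fun t e =>
    hc.2.2.2 t (t + 1 + 1) (by omega) (by omega) (by rw [hv, hv, pos_inj r e])
  choose x hx hs using S
  have lm : ∀ t, x (t + 1) < x t → x (t - 1) < x t → LM (lab hi0 (m0 md r) rk (3 * n)) v t := by
    intro t a b
    have := hx (t - 1)
    rw [sub_add_cancel] at this
    exact ⟨by rw [hx, hx]; exact_mod_cast a, by rw [this, hx]; exact_mod_cast b⟩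
  have a0 := (hs (t - 1 - 1)).2.2
  have a1 := (hs (t - 1)).2.2
  have a2 := (hs t).2.2
  have a3 := (hs (t + 1)).2.2
  have a4 := (hs (t + 1 + 1)).2.2
  have a5 := (hs (t + 1 + 1 + 1)).2.2
  have n0 := N (t - 1 - 1)
  have n1 := N (t - 1)
  have n2 := N t
  have n3 := N (t + 1)
  have n4 := N (t + 1 + 1)
  have := pos_lt r (w (t - 1))
  simp only [sub_add_cancel] at a0 a1 n0 n1
  have p1 : pos r (w (t - 1)) = 0 := by omega
  have p2 : pos r (w (t - 1 - 1)) = 1 := by omega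
  have p3 : pos r (w (t + 1 + 1)) + 3 = n := by omega
  have p4 : pos r (w (t + 1 + 1 + 1)) + 4 = n := by omega
  have p5 : pos r (w (t + 1 + 1 + 1 + 1)) + 5 = n := by omega
  have b0 : x (t - 1 - 1) = lbl n md (pos r (w (t - 1))) := by omega
  have b1 : x (t - 1) = lbl n md (pos r (w t)) := by omega
  have b2 : x t = lbl n md (pos r (w (t + 1))) := by omega
  have b3 : x (t + 1) = lbl n md (pos r (w (t + 1 + 1))) := by omega
  have b4 : x (t + 1 + 1) = lbl n md (pos r (w (t + 1 + 1 + 1))) := by omega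
  have b5 : x (t + 1 + 1 + 1) = lbl n md (pos r (w (t + 1 + 1 + 1 + 1))) := by omega
  clear a0 a1 a2 a3 a4 a5
  have two : ∀ p q, p < n → q < n → md ≠ 0 → (md = 1 ∧ (p = 0 ∨ 3 ≤ p ∧ p % 2 = 1) ∧ 2 ≤ q ∧ q % 2 = 0) ∨
      (md ≠ 1 ∧ 2 ≤ p ∧ p % 2 = 0 ∧ 3 ≤ q ∧ q % 2 = 1) → lbl n md p < lbl n md q := by
    intro p q hp hq hm h
    clear b0 b1 b2 b3 b4 b5 p1 p2 p3 p4 p5 n0 n1 n2 n3 n4
    rcases spec n md p with a | a | a | a | a | a | a | a | a <;>
      rcases spec n md q with b | b | b | b | b | b | b | b | b <;> omega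
  by_cases e : md = 1
  · refine ⟨t - 1, t + 1, by omega, by omega, lm _ ?_ ?_, lm _ ?_ ?_⟩
    · rw [sub_add_cancel, b1, b2]; exact two _ _ (by omega) (by omega) hm (by omega)
    · rw [b0, b1]; exact two _ _ (by omega) (by omega) hm (by omega)
    · rw [b3, b4]; exact two _ _ (by omega) (by omega) hm (by omega)
    · rw [add_sub_cancel_right, b2, b3]; exact two _ _ (by omega) (by omega) hm (by omega)
  · refine ⟨t, t + 1 + 1, by omega, by omega, lm _ ?_ ?_, lm _ ?_ ?_⟩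
    · rw [b2, b3]; exact two _ _ (by omega) (by omega) hm (by omega)
    · rw [b1, b2]; exact two _ _ (by omega) (by omega) hm (by omega)
    · rw [b4, b5]; exact two _ _ (by omega) (by omega) hm (by omega)
    · rw [add_sub_cancel_right, b3, b4]; exact two _ _ (by omega) (by omega) hm (by omega)

include hw ho in
theorem good0 (hd : md ≠ 0 → ¬ (H.Adj (inr (r, decide (md = 1))) (inl (lo0 (r, decide (md = 1)))) ∧
      H.Adj (inr (r, decide (md = 1))) (inl (hi0 (r, decide (md = 1)))))) :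
    ∃ f : ZMod n ⊕ ZMod n × Bool → ZMod n ⊕ ZMod n × Bool → ℝ, (∀ a b, f a b = f b a) ∧
      (∀ x y z w, H.Adj x y → H.Adj z w → f x y = f z w → (x = z ∧ y = w) ∨ (x = w ∧ y = z)) ∧
      GoodS H f := by
  have hy := hyp hn hH md r (fun k => (Finite.equivFin _ k).val) (fun a b e =>
      (Finite.equivFin _).injective (Fin.ext e))
  refine ⟨_, hy.symm, hy.injE, hy.good (noinc hn ho hH md r hw hd) ?_⟩
  intro L v hc hb
  choose w hv using hb
  obtain ⟨_, ⟨t, rfl⟩, hmax⟩ := Set.exists_max_image (Set.range w) (pos r) (Set.toFinite _)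
    (Set.range_nonempty _)
  have m1 := hmax _ ⟨t + 1, rfl⟩
  have m2 := hmax _ ⟨t - 1, rfl⟩
  have a1 := hc.2.2.1 t
  have a2 := hc.2.2.1 (t - 1)
  rw [sub_add_cancel] at a2
  rw [hv, hv] at a1 a2
  obtain ⟨x, -, -, -, q1⟩ := st hn hH md r hw a1
  obtain ⟨y, -, -, -, q2⟩ := st hn hH md r hw a2
  have N : pos r (w (t - 1)) ≠ pos r (w (t + 1)) := fun e =>
    hc.2.2.2 (t - 1) (t + 1) (by omega) (by have := hc.1; omega) (by rw [hv, hv, pos_inj r e])
  have hm : md ≠ 0 := by omega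
  have h0 : pos r (w t) + 1 = n := by omega
  by_cases h1 : pos r (w (t + 1)) + 2 = n
  · exact base1 hn ho hH md r hw _ hc w hv t h0 h1 hm
  · refine Two.of_rev hy.symm (base1 hn ho hH md r hw _ hc.rev (fun t => w (-t))
      (fun t => hv _) (-t) (by simpa using h0) ?_ hm)
    rw [show -(-t + 1) = t - 1 by ring]
    omega

end

theorem good_del [NeZero n] (hn : 7 ≤ n) (ho : n % 2 = 1)
    {H : SimpleGraph (ZMod n ⊕ ZMod n × Bool)} (hH : H ≤ G0 n) {x y : ZMod n ⊕ ZMod n × Bool}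
    (h1 : (G0 n).Adj x y) (h2 : ¬ H.Adj x y) :
    ∃ f : ZMod n ⊕ ZMod n × Bool → ZMod n ⊕ ZMod n × Bool → ℝ, (∀ a b, f a b = f b a) ∧
      (∀ x y z w, H.Adj x y → H.Adj z w → f x y = f z w → (x = z ∧ y = w) ∨ (x = w ∧ y = z)) ∧
      GoodS H f := by
  have A : ∀ a : ZMod n, ¬ H.Adj (inl a) (inl (a + 1)) → _ := fun a h =>
    good0 hn ho hH 0 (a + 1) (fun _ => by rwa [add_sub_cancel_right]) (fun h => absurd rfl h)
  have C : ∀ (k : ZMod n × Bool) (b : ZMod n), (b = lo0 k ∨ b = hi0 k) →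
      ¬ H.Adj (inr k) (inl b) → _ := fun k b hb h =>
    good0 hn ho hH (if k.2 then 1 else 2) k.1 (fun e => by split_ifs at e) (fun _ => by
      have : (k.1, decide ((if k.2 then 1 else 2) = 1)) = k := by
        rcases k with ⟨a, _ | _⟩ <;> simp
      rw [this]
      rintro ⟨a, a'⟩
      rcases hb with rfl | rfl
      exacts [h a, h a'])
  rcases x with a | k <;> rcases y with b | l
  · rcases h1.2 with rfl | rfl
    · exact A a h2
    · exact A b (fun h => h2 h.symm)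
  · exact C l a h1 (fun h => h2 h.symm)
  · exact C k b h1 h2
  · exact absurd h1 id

end Pool.Agent.H.MP_f027b3_co
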