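import Mathlib
import Pool.Agent.H.MP_f027b3_co.C

namespace Pool.Agent.H.MP_f027b3_co

open Sum

variable {n : ℕ} {α : Type}

theorem bad [NeZero n] (hn : 7 ≤ n) (ho : n % 2 = 1) (e : α ≃ (ZMod n ⊕ ZMod n × Bool))
    (f : α → α → ℝ) (hs : ∀ a b, f a b = f b a)
    (hi : ∀ x y z w, ((G0 n).comap e).Adj x y → ((G0 n).comap e).Adj z w → f x y = f z w →
      (x = z ∧ y = w) ∨ (x = w ∧ y = z))
    (hg : GoodW ((G0 n).comap e) f) : False := by
  have adj : ∀ x y, (G0 n).Adj x y → ((G0 n).comap e).Adj (e.symm x) (e.symm y) := by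
    intro x y h; simpa using h
  have ne : ∀ x y, x ≠ y → e.symm x ≠ e.symm y := fun x y h h' => h (e.symm.injective h')
  obtain ⟨u, hu⟩ : ∃ u : ZMod n → α, u = fun a => e.symm (inl a) := ⟨_, rfl⟩
  have P := pos_succ hn 0
  have d1 : ∀ a : ZMod n, a ≠ a + 1 := fun a h => by
    have := P a; rw [← h] at this; omega
  have d2 : ∀ a : ZMod n, a ≠ a + 1 + 1 := fun a h => by
    have := P a; have := P (a + 1); rw [← h] at this; omega
  have d3 : ∀ a : ZMod n, a ≠ a + 1 + 1 + 1 := fun a h => by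
    have := three hn 0 a; rw [← h] at this; omega
  have au : ∀ a, ((G0 n).comap e).Adj (u a) (u (a + 1)) := fun a => by
    rw [hu]; exact adj _ _ ⟨d1 a, Or.inl rfl⟩
  have nu : ∀ a b, a ≠ b → u a ≠ u b := fun a b h => by
    rw [hu]; exact ne _ _ (fun h' => h (inl_injective h'))
  have m1 : ∀ a β, ((G0 n).comap e).Adj (u a) (e.symm (inr (a, β))) := fun a β => by
    rw [hu]; refine adj _ _ ?_
    cases β
    · exact Or.inr rfl
    · exact Or.inl rfl
  have m2 : ∀ a β, ((G0 n).comap e).Adj (u (a + 1 + 1 + 1)) (e.symm (inr (a, β))) := fun a β => by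
    rw [hu]; refine adj _ _ ?_
    cases β
    · exact Or.inl rfl
    · exact Or.inr rfl
  have nm : ∀ a k, u a ≠ e.symm (inr k) := fun a k => by
    rw [hu]; exact ne _ _ (by simp)
  have dist : ∀ a, f (u a) (u (a + 1)) ≠ f (u (a + 1)) (u (a + 1 + 1)) := by
    intro a h
    rcases hi _ _ _ _ (au a) (au (a + 1)) h with ⟨h, -⟩ | ⟨h, -⟩
    exacts [nu _ _ (d1 a) h, nu _ _ (d2 a) h]
  have alt : ∀ a, (f (u (a + 1)) (u (a + 1 + 1)) < f (u (a + 1 + 1)) (u (a + 1 + 1 + 1)) ↔
      ¬ f (u a) (u (a + 1)) < f (u (a + 1)) (u (a + 1 + 1))) := by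
    intro a
    have q := c4 hg (m1 a true) (m2 a true).symm (m2 a false) (m1 a false).symm
      (nu _ _ (d3 a)) (ne _ _ (by simp))
    have q1 := fun β => c5 hg (au a) (au (a + 1)) (au (a + 1 + 1)) (m2 a β) (m1 a β).symm
      (nu _ _ (d2 a)) (nu _ _ (d3 a)) (nu _ _ (d2 (a + 1))) (nm _ _) (nm _ _)
    have q2 := q1 true
    have q3 := q1 false
    have := dist a
    have := dist (a + 1)
    have := hs (u a) (e.symm (inr (a, true)))
    have := hs (u (a + 1 + 1 + 1)) (e.symm (inr (a, true)))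
    grind
  have ind : ∀ k : ℕ, (f (u ((2 * k : ℕ) : ZMod n)) (u (((2 * k : ℕ) : ZMod n) + 1)) <
      f (u (((2 * k : ℕ) : ZMod n) + 1)) (u (((2 * k : ℕ) : ZMod n) + 1 + 1)) ↔
      f (u 0) (u (0 + 1)) < f (u (0 + 1)) (u (0 + 1 + 1))) := by
    intro k
    induction k with
    | zero => simp
    | succ k ih =>
      have : ((2 * (k + 1) : ℕ) : ZMod n) = ((2 * k : ℕ) : ZMod n) + 1 + 1 := by push_cast; ring
      rw [this, alt, alt, not_not, ih]
  have h1 := ind (n / 2)
  have h2 := alt ((2 * (n / 2) : ℕ) : ZMod n)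
  have h3 : ((2 * (n / 2) : ℕ) : ZMod n) + 1 = 0 := by
    have : ((2 * (n / 2) + 1 : ℕ) : ZMod n) = 0 := by
      rw [show 2 * (n / 2) + 1 = n by omega]; simp
    exact_mod_cast this
  rw [h1, h3] at h2
  tauto

theorem edges [NeZero n] (e : α ≃ (ZMod n ⊕ ZMod n × Bool)) :
    ((G0 n).comap e).edgeSet.ncard ≤ 5 * n := by
  have hsub : ((G0 n).comap e).edgeSet ⊆ Set.range
      (fun i : ZMod n ⊕ (ZMod n × Bool) × Bool => match i with
        | inl a => s(e.symm (inl a), e.symm (inl (a + 1)))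
        | inr (k, β) => s(e.symm (inr k), e.symm (inl (if β then lo0 k else hi0 k)))) := by
    intro s hs
    induction s using Sym2.ind with
    | _ x y =>
      obtain ⟨x, rfl⟩ := e.symm.surjective x
      obtain ⟨y, rfl⟩ := e.symm.surjective y
      have h : (G0 n).Adj x y := by simpa using hs
      rcases x with a | k <;> rcases y with b | l
      · rcases h.2 with rfl | rfl
        · exact ⟨inl a, rfl⟩
        · exact ⟨inl b, Sym2.eq_swap⟩
      · rcases h with rfl | rfl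
        · exact ⟨inr (l, true), Sym2.eq_swap⟩
        · exact ⟨inr (l, false), Sym2.eq_swap⟩
      · rcases h with rfl | rfl
        · exact ⟨inr (k, true), rfl⟩
        · exact ⟨inr (k, false), rfl⟩
      · exact absurd h id
  refine (Set.ncard_le_ncard hsub (Set.finite_range _)).trans ?_
  rw [← Set.image_univ]
  refine (Set.ncard_image_le (Set.toFinite _)).trans ?_
  rw [Set.ncard_univ, Nat.card_eq_fintype_card]
  simp only [Fintype.card_sum, Fintype.card_prod, ZMod.card, Fintype.card_bool]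
  omega

theorem family (N : ℕ) : ∃ (m : ℕ) (G : SimpleGraph (Fin m)), N < m ∧
    (∀ v, ∃ w, G.Adj v w) ∧
    (¬ ∃ f : Fin m → Fin m → ℝ, (∀ a b, f a b = f b a) ∧
      (∀ x y z w, G.Adj x y → G.Adj z w → f x y = f z w → (x = z ∧ y = w) ∨ (x = w ∧ y = z)) ∧
      GoodW G f) ∧
    (∀ H : SimpleGraph (Fin m), H < G → ∃ f : Fin m → Fin m → ℝ, (∀ a b, f a b = f b a) ∧
      (∀ x y z w, H.Adj x y → H.Adj z w → f x y = f z w → (x = z ∧ y = w) ∨ (x = w ∧ y = z)) ∧
      GoodW H f) ∧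
    2 * (G.edgeSet.ncard : ℝ) < 7 / 2 * (m : ℝ) := by
  obtain ⟨n, hn⟩ : ∃ n, n = 2 * N + 7 := ⟨_, rfl⟩
  have : NeZero n := ⟨by omega⟩
  have h7 : 7 ≤ n := by omega
  have ho : n % 2 = 1 := by omega
  obtain ⟨e⟩ : Nonempty (Fin (3 * n) ≃ (ZMod n ⊕ ZMod n × Bool)) :=
    ⟨(Fintype.equivFinOfCardEq (by
      simp only [Fintype.card_sum, Fintype.card_prod, ZMod.card, Fintype.card_bool]
      omega)).symm⟩
  refine ⟨3 * n, (G0 n).comap e, by omega, fun v => ?_, fun ⟨f, h1, h2, h3⟩ =>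
    bad h7 ho e f h1 h2 h3, fun H hH => ?_, ?_⟩
  · obtain ⟨v, rfl⟩ := e.symm.surjective v
    rcases v with a | k
    · refine ⟨e.symm (inr (a, true)), ?_⟩
      have : (G0 n).Adj (inl a) (inr (a, true)) := Or.inl rfl
      simpa using this
    · refine ⟨e.symm (inl (lo0 k)), ?_⟩
      have : (G0 n).Adj (inr k) (inl (lo0 k)) := Or.inl rfl
      simpa using this
  · obtain ⟨x, y, h1, h2⟩ : ∃ x y, ((G0 n).comap e).Adj x y ∧ ¬ H.Adj x y := by
      by_contra h
      push Not at h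
      exact hH.not_ge (fun x y hxy => h x y hxy)
    obtain ⟨f, f1, f2, f3⟩ := good_del h7 ho (H := H.comap e.symm)
      (fun a b h => by simpa using hH.le (show H.Adj (e.symm a) (e.symm b) from h)) (x := e x) (y := e y) h1 (by simpa using h2)
    refine ⟨fun a b => f (e a) (e b), fun a b => f1 _ _, fun a b c d k1 k2 k3 => ?_,
      goodW_of (fun L v hc => ?_)⟩
    · simpa using f2 _ _ _ _ (by simpa using k1) (by simpa using k2) k3
    · exact f3 L (fun t => e (v t)) ⟨hc.1, fun t => by simp only [hc.2.1],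
        fun t => by simpa using hc.2.2.1 t, fun a b p q r => hc.2.2.2 a b p q (e.injective r)⟩
  · have h := edges e
    have h' : (((G0 n).comap e).edgeSet.ncard : ℝ) ≤ 5 * n := by exact_mod_cast h
    have : (0 : ℝ) < n := by exact_mod_cast (by omega : 0 < n)
    push_cast
    linarith

end Pool.Agent.H.MP_f027b3_co
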